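import Pool.Agent.H58.PermTools

set_option autoImplicit false

/-!
The permanent-on-top property fails for real positive semidefinite matrices of every size
`n ≥ 9`; in particular it fails for `n = 9, ..., 15`.

The example for `n = 9` is the Gram matrix of the nine vectors
`e_i` (`i = 1, 2, 3`) and `e_i + e_j`, `e_i - e_j` (`i < j`) of `ℝ³` (one for each line of the
root system `B₃`). Its permanent is `4320`, and `4416` is a lower bound for the largest
eigenvalue of its Schur power matrix.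
-/

namespace Pool.Agent.Results.MP_102303_co.PotFailsFromNine

open Finset Matrix Pool.Agent.H58

/-- The Schur power matrix `π(A)` of an `n × n` matrix `A`: rows and columns are indexed by the
permutations of `Fin n`, and the entry at `(σ, τ)` is `∏ i, A (σ i) (τ i)`. -/
def schurPower {n : ℕ} (A : Matrix (Fin n) (Fin n) ℝ) :
    Matrix (Equiv.Perm (Fin n)) (Equiv.Perm (Fin n)) ℝ :=
  Matrix.of fun σ τ => ∏ i, A (σ i) (τ i)

theorem schurPower_isHermitian {n : ℕ} (A : Matrix (Fin n) (Fin n) ℝ) (hA : A.PosSemidef) :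
    (schurPower A).IsHermitian := by
  apply Matrix.IsHermitian.ext
  intro σ τ
  simp only [schurPower, Matrix.of_apply, star_trivial]
  apply Finset.prod_congr rfl
  intro i _
  have := hA.isHermitian.apply (σ i) (τ i)
  simpa using this

/-- Sanity check: the all-ones vector is an eigenvector of `π(A)` for the eigenvalue `per A`. -/
theorem schurPower_mulVec_one {n : ℕ} (A : Matrix (Fin n) (Fin n) ℝ) :
    schurPower A *ᵥ (fun _ => 1) = A.permanent • (fun _ => (1 : ℝ)) := by
  funext σ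
  simp only [Matrix.mulVec, dotProduct, schurPower, Matrix.of_apply, mul_one, Pi.smul_apply,
    smul_eq_mul]
  rw [← Matrix.permanent_transpose, Matrix.permanent]
  refine Fintype.sum_equiv (Equiv.mulRight σ⁻¹) _ _ ?_
  intro τ
  rw [← Equiv.prod_comp σ (fun i => Aᵀ ((Equiv.mulRight σ⁻¹ τ) i) i)]
  apply Finset.prod_congr rfl
  intro i _
  simp

/-- The nine vectors. -/
def V9 : Fin 9 → Fin 3 → ℤ :=
  ![![1, 0, 0], ![0, 1, 0], ![0, 0, 1], ![1, 1, 0], ![1, -1, 0], ![1, 0, 1], ![1, 0, -1],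
    ![0, 1, 1], ![0, 1, -1]]

/-- The `3 × 3` determinant written out. -/
def det3 (M : Fin 3 → Fin 3 → ℤ) : ℤ :=
  M 0 0 * (M 1 1 * M 2 2 - M 1 2 * M 2 1) - M 0 1 * (M 1 0 * M 2 2 - M 1 2 * M 2 0)
    + M 0 2 * (M 1 0 * M 2 1 - M 1 1 * M 2 0)

theorem detR_three (M : Fin 3 → Fin 3 → ℤ) : detR M = det3 M := by
  rw [detR_eq_det, Matrix.det_fin_three, det3]
  simp only [Matrix.of_apply]
  ring

theorem per_gram_V9 : (gram V9).permanent = 4320 := by
  rw [permanent_eq_iterDiff]
  decide +kernel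

theorem sum_sq_V9 :
    ∑ σ : Equiv.Perm (Fin 9), fBlock (m := 3) (r := 3) finProdFinEquiv V9 σ ^ 2 = 953856 := by
  rw [sum_fBlock_sq]
  simp only [detR_three]
  decide +kernel

theorem rayleigh_V9 :
    4416 * ∑ σ : Equiv.Perm (Fin 9), fBlock (m := 3) (r := 3) finProdFinEquiv V9 σ ^ 2 ≤
      ∑ σ : Equiv.Perm (Fin 9), ∑ τ : Equiv.Perm (Fin 9),
          fBlock (m := 3) (r := 3) finProdFinEquiv V9 σ * (∏ i, gram V9 (σ i) (τ i)) *
            fBlock (m := 3) (r := 3) finProdFinEquiv V9 τ := by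
  have h := rayleigh_int (m := 3) (r := 3) finProdFinEquiv V9
  rw [sum_sq_V9] at h ⊢
  have h6 : ((Nat.factorial 3 : ℕ) : ℤ) ^ 3 = 216 := by norm_num [Nat.factorial]
  rw [h6] at h
  linarith

/-- The real `9 × 9` matrix. -/
noncomputable def A9 : Matrix (Fin 9) (Fin 9) ℝ := (gram V9).map (Int.cast : ℤ → ℝ)

theorem A9_posSemidef : A9.PosSemidef := by
  have h : A9 = (Matrix.of fun (i : Fin 9) (l : Fin 3) => ((V9 i l : ℤ) : ℝ)) *
      (Matrix.of fun (i : Fin 9) (l : Fin 3) => ((V9 i l : ℤ) : ℝ))ᴴ := by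
    ext i j
    simp [A9, H58.gram, Matrix.mul_apply]
  rw [h]
  exact Matrix.posSemidef_self_mul_conjTranspose _

theorem A9_permanent : A9.permanent = 4320 := by
  have h := per_gram_V9
  rw [Matrix.permanent] at h ⊢
  have h2 : ((∑ σ : Equiv.Perm (Fin 9), ∏ i, gram V9 (σ i) i : ℤ) : ℝ) = ((4320 : ℤ) : ℝ) := by
    rw [h]
  push_cast at h2
  simpa [A9] using h2

/-- Base case. -/
theorem base : ∃ A : Matrix (Fin 9) (Fin 9) ℝ, A.PosSemidef ∧
    ∃ μ : ℝ, Module.End.HasEigenvalue (Matrix.toLin' (schurPower A)) μ ∧ A.permanent < μ := by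
  refine ⟨A9, A9_posSemidef, ?_⟩
  rw [A9_permanent]
  apply exists_eigenvalue_gt (schurPower A9) (schurPower_isHermitian A9 A9_posSemidef) 4320
    (fun σ => ((fBlock (m := 3) (r := 3) finProdFinEquiv V9 σ : ℤ) : ℝ))
  have e1 : (fun σ : Equiv.Perm (Fin 9) =>
        ((fBlock (m := 3) (r := 3) finProdFinEquiv V9 σ : ℤ) : ℝ)) ⬝ᵥ
      (fun σ => ((fBlock (m := 3) (r := 3) finProdFinEquiv V9 σ : ℤ) : ℝ)) =
      ((∑ σ : Equiv.Perm (Fin 9), fBlock (m := 3) (r := 3) finProdFinEquiv V9 σ ^ 2 : ℤ) : ℝ) := by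
    simp only [dotProduct]
    push_cast
    apply Finset.sum_congr rfl; intro σ _
    ring
  have e2 : (fun σ : Equiv.Perm (Fin 9) =>
        ((fBlock (m := 3) (r := 3) finProdFinEquiv V9 σ : ℤ) : ℝ)) ⬝ᵥ
      (schurPower A9 *ᵥ
        (fun σ => ((fBlock (m := 3) (r := 3) finProdFinEquiv V9 σ : ℤ) : ℝ))) =
      ((∑ σ : Equiv.Perm (Fin 9), ∑ τ : Equiv.Perm (Fin 9),
          fBlock (m := 3) (r := 3) finProdFinEquiv V9 σ * (∏ i, gram V9 (σ i) (τ i)) *
            fBlock (m := 3) (r := 3) finProdFinEquiv V9 τ : ℤ) : ℝ) := by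
    simp only [dotProduct, Matrix.mulVec, schurPower, Matrix.of_apply, A9, Matrix.map_apply]
    push_cast
    apply Finset.sum_congr rfl; intro σ _
    rw [Finset.mul_sum]
    apply Finset.sum_congr rfl; intro τ _
    ring
  rw [e1, e2]
  have h := rayleigh_V9
  have h3 : (4320 : ℤ) * ∑ σ : Equiv.Perm (Fin 9),
      fBlock (m := 3) (r := 3) finProdFinEquiv V9 σ ^ 2 <
      ∑ σ : Equiv.Perm (Fin 9), ∑ τ : Equiv.Perm (Fin 9),
          fBlock (m := 3) (r := 3) finProdFinEquiv V9 σ * (∏ i, gram V9 (σ i) (τ i)) *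
            fBlock (m := 3) (r := 3) finProdFinEquiv V9 τ := by
    refine lt_of_lt_of_le ?_ h
    rw [sum_sq_V9]
    norm_num
  exact_mod_cast h3

/-- The direct sum of the `1 × 1` matrix `(1)` with `A`. -/
def extend {n : ℕ} (A : Matrix (Fin n) (Fin n) ℝ) : Matrix (Fin (n + 1)) (Fin (n + 1)) ℝ :=
  Matrix.of fun i j =>
    Fin.cases (Fin.cases 1 (fun _ => 0) j) (fun i' => Fin.cases 0 (fun j' => A i' j') j) i

@[simp] theorem extend_zero_zero {n : ℕ} (A : Matrix (Fin n) (Fin n) ℝ) :
    extend A 0 0 = 1 := rfl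
@[simp] theorem extend_zero_succ {n : ℕ} (A : Matrix (Fin n) (Fin n) ℝ) (j : Fin n) :
    extend A 0 j.succ = 0 := rfl
@[simp] theorem extend_succ_zero {n : ℕ} (A : Matrix (Fin n) (Fin n) ℝ) (i : Fin n) :
    extend A i.succ 0 = 0 := rfl
@[simp] theorem extend_succ_succ {n : ℕ} (A : Matrix (Fin n) (Fin n) ℝ) (i j : Fin n) :
    extend A i.succ j.succ = A i j := rfl

theorem extend_posSemidef {n : ℕ} (A : Matrix (Fin n) (Fin n) ℝ) (hA : A.PosSemidef) :
    (extend A).PosSemidef := by
  apply Matrix.PosSemidef.of_dotProduct_mulVec_nonneg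
  · apply Matrix.IsHermitian.ext
    intro i j
    refine Fin.cases ?_ (fun i' => ?_) i <;> refine Fin.cases ?_ (fun j' => ?_) j
    · simp
    · simp
    · simp
    · have := hA.isHermitian.apply i' j'
      simpa using this
  · intro x
    have h := hA.dotProduct_mulVec_nonneg (fun i => x i.succ)
    have e : star x ⬝ᵥ (extend A *ᵥ x) = x 0 ^ 2 +
        star (fun i => x (Fin.succ i)) ⬝ᵥ (A *ᵥ (fun i => x (Fin.succ i))) := by
      simp only [dotProduct, Matrix.mulVec, Fin.sum_univ_succ, extend_zero_zero,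
        extend_zero_succ, extend_succ_zero, extend_succ_succ, star_trivial]
      simp
      ring
    rw [e]
    positivity

theorem extend_permanent {n : ℕ} (A : Matrix (Fin n) (Fin n) ℝ) :
    (extend A).permanent = A.permanent := by
  rw [Matrix.permanent, ← Equiv.sum_comp Equiv.Perm.decomposeFin.symm, Fintype.sum_prod_type,
    Fin.sum_univ_succ]
  have h0 : ∀ p : Fin n, ∑ e : Equiv.Perm (Fin n),
      ∏ i, extend A (Equiv.Perm.decomposeFin.symm (p.succ, e) i) i = 0 := by
    intro p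
    apply Finset.sum_eq_zero; intro e _
    apply Finset.prod_eq_zero (Finset.mem_univ (0 : Fin (n + 1)))
    simp
  rw [Finset.sum_eq_zero (fun p _ => h0 p), add_zero, Matrix.permanent]
  apply Finset.sum_congr rfl; intro e _
  rw [Fin.prod_univ_succ]
  simp

/-- Extend a function on permutations of `Fin n` by zero. -/
noncomputable def extendFun {n : ℕ} (f : Equiv.Perm (Fin n) → ℝ) :
    Equiv.Perm (Fin (n + 1)) → ℝ := fun σ =>
  if (Equiv.Perm.decomposeFin σ).1 = 0 then f (Equiv.Perm.decomposeFin σ).2 else 0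

theorem extend_eigen {n : ℕ} (A : Matrix (Fin n) (Fin n) ℝ) (μ : ℝ)
    (h : Module.End.HasEigenvalue (Matrix.toLin' (schurPower A)) μ) :
    Module.End.HasEigenvalue (Matrix.toLin' (schurPower (extend A))) μ := by
  obtain ⟨f, hf⟩ := h.exists_hasEigenvector
  have hf1 : schurPower A *ᵥ f = μ • f := by
    have := hf.apply_eq_smul
    rwa [Matrix.toLin'_apply] at this
  have hf0 : f ≠ 0 := hf.2
  apply Module.End.hasEigenvalue_of_hasEigenvector (x := extendFun f)
  refine ⟨Module.End.mem_eigenspace_iff.mpr ?_, ?_⟩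
  · rw [Matrix.toLin'_apply]
    funext σ
    obtain ⟨⟨p, e⟩, rfl⟩ := Equiv.Perm.decomposeFin.symm.surjective σ
    simp only [Matrix.mulVec, dotProduct, Pi.smul_apply, smul_eq_mul]
    rw [← Equiv.sum_comp Equiv.Perm.decomposeFin.symm, Fintype.sum_prod_type,
      Fin.sum_univ_succ]
    have h0 : ∀ q : Fin n, ∑ e' : Equiv.Perm (Fin n),
        schurPower (extend A) (Equiv.Perm.decomposeFin.symm (p, e))
          (Equiv.Perm.decomposeFin.symm (q.succ, e')) *
          extendFun f (Equiv.Perm.decomposeFin.symm (q.succ, e')) = 0 := by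
      intro q
      apply Finset.sum_eq_zero; intro e' _
      simp [extendFun]
    rw [Finset.sum_eq_zero (fun q _ => h0 q), add_zero]
    refine Fin.cases ?_ (fun p' => ?_) p
    · have h1 := congrFun hf1 e
      simp only [Matrix.mulVec, dotProduct, Pi.smul_apply, smul_eq_mul] at h1
      simp only [extendFun, Equiv.apply_symm_apply, if_true]
      rw [← h1]
      apply Finset.sum_congr rfl; intro e' _
      congr 1
      simp only [schurPower, Matrix.of_apply]
      rw [Fin.prod_univ_succ]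
      simp
    · simp only [extendFun, Equiv.apply_symm_apply]
      rw [if_neg (Fin.succ_ne_zero p'), mul_zero]
      apply Finset.sum_eq_zero; intro e' _
      simp only [schurPower, Matrix.of_apply]
      rw [Fin.prod_univ_succ]
      simp
  · intro h0
    apply hf0
    funext e
    have := congrFun h0 (Equiv.Perm.decomposeFin.symm (0, e))
    simpa [extendFun] using this

theorem eigenvalue_form : ∀ n : ℕ, 9 ≤ n → ∃ A : Matrix (Fin n) (Fin n) ℝ, A.PosSemidef ∧
    ∃ μ : ℝ, Module.End.HasEigenvalue (Matrix.toLin' (schurPower A)) μ ∧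
      A.permanent < μ := by
  intro n hn
  induction n, hn using Nat.le_induction with
  | base => exact base
  | succ n _ ih =>
    obtain ⟨A, hA, μ, hμ, hlt⟩ := ih
    exact ⟨extend A, extend_posSemidef A hA, μ, extend_eigen A μ hμ,
      by rw [extend_permanent]; exact hlt⟩

/-- For every `n ≥ 9` there is a real positive semidefinite `n × n` matrix `A` whose Schur power
matrix `π(A)` has an eigenvalue `μ` (with a nonzero real eigenvector `f`) larger than `per A`. -/
theorem result : ∀ n : ℕ, 9 ≤ n → ∃ A : Matrix (Fin n) (Fin n) ℝ, A.PosSemidef ∧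
    ∃ (μ : ℝ) (f : Equiv.Perm (Fin n) → ℝ),
      f ≠ 0 ∧ schurPower A *ᵥ f = μ • f ∧ A.permanent < μ := by
  intro n hn
  obtain ⟨A, hA, μ, hμ, hlt⟩ := eigenvalue_form n hn
  obtain ⟨f, hf⟩ := hμ.exists_hasEigenvector
  refine ⟨A, hA, μ, f, hf.2, ?_, hlt⟩
  have := hf.apply_eq_smul
  rwa [Matrix.toLin'_apply] at this

end Pool.Agent.Results.MP_102303_co.PotFailsFromNine
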