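import Pool.Agent.H58.RT.MainD

set_option autoImplicit false

/-!
# Real positive semidefinite matrices: rank at most two plus a nonnegative diagonal

For every real matrix `A = R + D` of any size `n`, where `R` is positive semidefinite of rank at most `2` and `D` is
diagonal with nonnegative entries, the permanent is the largest eigenvalue of the Schur power matrix (the
permanent-on-top property), and the Bapat-Sunder inequality `per (A ∘ B) ≤ per A * b₁₁ ⋯ bₙₙ` holds for every real
positive semidefinite `B`.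
-/

namespace Pool.Agent.Results.MP_102303_co.RealRankTwo

open Finset Matrix

/-- The Schur power matrix `π(A)` of an `n × n` matrix `A`: rows and columns are indexed by the
permutations of `Fin n`, and the entry at `(σ, τ)` is `∏ i, A (σ i) (τ i)`. -/
def schurPower {n : ℕ} (A : Matrix (Fin n) (Fin n) ℝ) :
    Matrix (Equiv.Perm (Fin n)) (Equiv.Perm (Fin n)) ℝ :=
  Matrix.of fun σ τ => ∏ i, A (σ i) (τ i)

private theorem one_eigen {n : ℕ} (A : Matrix (Fin n) (Fin n) ℝ) :
    schurPower A *ᵥ (fun _ => 1) = A.permanent • (fun _ => (1 : ℝ)) := by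
  funext σ
  simp only [Matrix.mulVec, dotProduct, schurPower, Matrix.of_apply, mul_one, Pi.smul_apply,
    smul_eq_mul]
  rw [← Matrix.permanent_transpose, Matrix.permanent]
  refine Fintype.sum_equiv (Equiv.mulRight σ⁻¹) _ _ ?_
  intro τ
  rw [← Equiv.prod_comp σ (fun i => Aᵀ ((Equiv.mulRight σ⁻¹ τ) i) i)]
  apply Finset.prod_congr rfl
  intro i _
  simp

/-- For `A = R + D`, `R` positive semidefinite of rank at most `2`, `D` the diagonal matrix with entries `d i ≥ 0`:
`per A` is the largest eigenvalue of `π(A)`, and the Bapat-Sunder inequality holds for all `B`. -/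
theorem result (n : ℕ) (R : Matrix (Fin n) (Fin n) ℝ) (hR : R.PosSemidef) (hr : R.rank ≤ 2)
    (d : Fin n → ℝ) (hd : ∀ i, 0 ≤ d i) (A : Matrix (Fin n) (Fin n) ℝ)
    (hA : A = R + Matrix.diagonal d) :
    IsGreatest {μ : ℝ | ∃ x : Equiv.Perm (Fin n) → ℝ, x ≠ 0 ∧ schurPower A *ᵥ x = μ • x}
      A.permanent ∧
    ∀ B : Matrix (Fin n) (Fin n) ℝ, B.PosSemidef →
      (Matrix.of fun i j => A i j * B i j).permanent ≤ A.permanent * ∏ i, B i i := by
  subst hA
  refine ⟨⟨⟨fun _ => 1, ?_, one_eigen _⟩, ?_⟩,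
    fun B hB => Pool.Agent.H58.RT.bs_rank_two_diag R B hR hr d hd hB⟩
  · intro h
    exact one_ne_zero (congrFun h 1)
  · rintro μ ⟨x, hx, hμ⟩
    have h1 := Pool.Agent.H58.RT.pot_rank_two_diag R hR hr d hd x
    have h2 : ∑ σ, ∑ τ, x σ * x τ * ∏ i, (R + Matrix.diagonal d) (σ i) (τ i) =
        μ * ∑ σ, x σ ^ 2 := by
      rw [Finset.mul_sum]
      refine Finset.sum_congr rfl fun σ _ => ?_
      have h3 := congrFun hμ σ
      simp only [Matrix.mulVec, dotProduct, schurPower, Matrix.of_apply, Pi.smul_apply,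
        smul_eq_mul] at h3
      calc ∑ τ, x σ * x τ * ∏ i, (R + Matrix.diagonal d) (σ i) (τ i) =
          x σ * ∑ τ, (∏ i, (R + Matrix.diagonal d) (σ i) (τ i)) * x τ := by
            rw [Finset.mul_sum]
            exact Finset.sum_congr rfl fun τ _ => by ring
        _ = _ := by rw [h3]; ring
    rw [h2] at h1
    have h4 : 0 < ∑ σ, x σ ^ 2 := by
      obtain ⟨σ, hσ⟩ := Function.ne_iff.1 hx
      refine Finset.sum_pos' (fun τ _ => sq_nonneg _) ⟨σ, Finset.mem_univ σ, ?_⟩
      have : x σ ≠ 0 := by simpa using hσ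
      positivity
    exact le_of_mul_le_mul_right h1 h4

end Pool.Agent.Results.MP_102303_co.RealRankTwo
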